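import Pool.Agent.Lib.MP_0baed1_lc.Good

/-!
# Finer completely metrizable topologies under determinacy: negative answers

In every model `(M, E)` of ZF + DC + AD, and in every model of ZF + DC + AD_ℝ, there are admissible
data `(G, X, S, a)` without a good refinement; here `G` is the trivial group.  Moreover every good
refinement of any admissible data is a Polish topology.  `ℛ` is the field of real numbers of the
model.

The proof inside the model:

* A complete metric and a well-ordered basis give, without any choice, a dense subset indexed by the
  basis (nested sequences of basic open sets, always with the least index).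
* Under AD every well-orderable set `D` of reals is countable.  Otherwise the least element of `D`
  that is not obtained from `x` (by columns and by playing against coded strategies) is an
  invariant function of `x`, and by the cone theorem each of its digits is constant on a cone.
* Hence a good refinement is Polish, and `S` is a continuous image of the Baire space.
* The diagonal set `S = {x : ¬ ∃ z, ∀ n, x ⟨n, z ↾ n, x ↾ n⟩ = 0}` is not of this form, and it is
  the union, over the countable ordinals `α`, of the Borel sets of all `x` for which the rank of the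
  tree coded by `x` is at most `α`.
-/

namespace Pool.Agent.Results.MP_0baed1_lc.NoGoodRefinement

open Pool.Agent.Lib.MP_c7a422_lc.Z
open Pool.Agent.Lib.MP_0baed1_lc

universe u

theorem result : ∀ {M : Type u} (E : M → M → Prop) (ℛ : Reals E), IsZF E → DC E →
    (AD E ∨ ADR ℛ) →
    (∃ (G τG X τ S : M) (mul : El E G → El E G → El E G) (a : El E G → El E S → El E S),
      (∀ g h : El E G, g = h) ∧ Admissible ℛ τG mul X τ a ∧
      ∀ t, ¬ GoodRefinement ℛ τG τ a t) ∧
    ∀ (G τG X τ S t : M) (mul : El E G → El E G → El E G) (a : El E G → El E S → El E S),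
      Admissible ℛ τG mul X τ a → GoodRefinement ℛ τG τ a t → IsPolish ℛ S t := by
  intro M E ℛ zf hDC hAD
  let 𝓜 : Ctx.{u} := ⟨M, E, zf, ℛ⟩
  have hCC : TCC 𝓜 := tcc_of_tdc (tdc_of_dc hDC)
  have hD : TDet 𝓜 𝓜.N := by
    rcases hAD with h | h
    · exact tdet_of_ad h
    · exact tdet_of_adr h
  refine ⟨?_, fun G τG X τ S t mul a h h' => isPolish_of_good (𝓜 := 𝓜) hD hCC h h'⟩
  obtain ⟨S, hS, hS'⟩ := exists_SS_set 𝓜
  exact ⟨G1 𝓜, τ1 𝓜, XB 𝓜, τB 𝓜, S, fun _ _ => g1 𝓜, fun _ x => x,
    fun g h => (eq_g1 (𝓜 := 𝓜) g).trans (eq_g1 (𝓜 := 𝓜) h).symm, admissible_SS hCC hS hS',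
    fun t => no_good hD hCC hS hS' t⟩

end Pool.Agent.Results.MP_0baed1_lc.NoGoodRefinement
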