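import Pool.Agent.Lib.MP_0baed1_lc.Good

/-!
# Under determinacy completely metrizable topologies with well-orderable bases are Polish

In every model `(M, E)` of ZF + DC + AD, and in every model of ZF + DC + AD_ℝ: if a completely
metrizable topology `t` on a subset `S` of a Polish space has a well-orderable basis, then `t` is
separable, hence a Polish topology.  In particular every good refinement is Polish.
-/

namespace Pool.Agent.Results.MP_0baed1_lc.WellOrderedBasis

open Pool.Agent.Lib.MP_c7a422_lc.Z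
open Pool.Agent.Lib.MP_0baed1_lc

universe u

theorem result : ∀ {M : Type u} (E : M → M → Prop) (ℛ : Reals E), IsZF E → DC E →
    (AD E ∨ ADR ℛ) → ∀ X τ S t β : M, IsPolish ℛ X τ → (∀ x, E x S → E x X) →
    CompletelyMetrizable ℛ S t → WellOrderable E β → (∀ U, E U β → E U t) →
    (∀ O x, E O t → E x O → ∃ U, E U β ∧ E x U ∧ ∀ y, E y U → E y O) → IsPolish ℛ S t := by
  intro M E ℛ zf hDC hAD X τ S t β hX hS ht hwo hβ hβ'
  let 𝓜 : Ctx.{u} := ⟨M, E, zf, ℛ⟩
  have hCC : TCC 𝓜 := tcc_of_tdc (tdc_of_dc hDC)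
  have hD : TDet 𝓜 𝓜.N := by
    rcases hAD with h | h
    · exact tdet_of_ad h
    · exact tdet_of_adr h
  exact isPolish_of_basis (𝓜 := 𝓜) hD hCC hX hS ht hwo hβ hβ'

end Pool.Agent.Results.MP_0baed1_lc.WellOrderedBasis
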